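import Pool.Graph.R_seed8.Helper10.Asy.Assembly

set_option autoImplicit false
open Bundle Filter Topology
open scoped Manifold ContDiff

namespace Pool.Agent.Results.MP_92a93b_gt.PlaneWithBoundedStrip

/-- The tangent spaces of a manifold modelled on `E`, as a family of vector spaces. -/
abbrev TB (E : Type) [NormedAddCommGroup E] [NormedSpace ℝ E] (M : Type) [TopologicalSpace M]
    [ChartedSpace E M] : M → Type := fun x => TangentSpace 𝓘(ℝ, E) x

/-- The Riemannian metric on the tangent spaces of `M` is smooth. -/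
structure SmoothMetric (E : Type) [NormedAddCommGroup E] [NormedSpace ℝ E] (M : Type)
    [TopologicalSpace M] [ChartedSpace E M] [IsManifold 𝓘(ℝ, E) ∞ M]
    [RiemannianBundle (TB E M)] : Prop where
  smooth : IsContMDiffRiemannianBundle 𝓘(ℝ, E) ∞ E (TB E M)

/-- The distance of `M` is the Riemannian distance. -/
structure RiemannianDist (E : Type) [NormedAddCommGroup E] [NormedSpace ℝ E] (M : Type)
    [MetricSpace M] [ChartedSpace E M] [RiemannianBundle (TB E M)] : Prop where
  riem : IsRiemannianManifold 𝓘(ℝ, E) M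

/-- A smooth Riemannian manifold modelled on `E`, with its Riemannian distance. -/
structure RMan (E : Type) [NormedAddCommGroup E] [NormedSpace ℝ E] where
  M : Type
  [metric : MetricSpace M]
  [charted : ChartedSpace E M]
  [manifold : IsManifold 𝓘(ℝ, E) ∞ M]
  [riem : RiemannianBundle (TB E M)]
  smooth : SmoothMetric E M
  riemDist : RiemannianDist E M

attribute [instance] RMan.metric

/-- A complete smooth Riemannian manifold of dimension two homeomorphic to the plane. -/
structure Plane where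
  R : RMan (EuclideanSpace ℝ (Fin 2))
  complete : CompleteSpace R.M
  homeo : Nonempty (R.M ≃ₜ ℝ × ℝ)

/-- The points of the plane. -/
abbrev Plane.M (P : Plane) : Type := P.R.M

/-- A unit-speed geodesic: a locally length-minimizing curve `ℝ → M`. -/
def IsGeodesic {M : Type} [MetricSpace M] (γ : ℝ → M) : Prop :=
  ∀ t : ℝ, ∃ ε > 0, ∀ s u : ℝ, |s - t| < ε → |u - t| < ε → dist (γ s) (γ u) = |s - u|

/-- A curve `ℝ → M` that minimizes length between any two of its points. -/
def IsLine {M : Type} [MetricSpace M] (γ : ℝ → M) : Prop := ∀ s u : ℝ, dist (γ s) (γ u) = |s - u|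

/-- There are a complete Riemannian plane all of whose geodesics are minimizing (so without
conjugate points) and a family of distinct geodesics `α u`, `0 ≤ u ≤ 1`, which are pairwise
asymptotic in the past and at distance at most `|u - v|` from each other for all times. -/
theorem result : ∃ P : Plane, (∀ γ : ℝ → P.M, IsGeodesic γ → IsLine γ) ∧
    ∃ α : ℝ → ℝ → P.M, (∀ u, IsLine (α u)) ∧
      ∀ u ∈ Set.Icc (0 : ℝ) 1, ∀ v ∈ Set.Icc (0 : ℝ) 1, u ≠ v →
        α u ≠ α v ∧ Tendsto (fun t => dist (α u t) (α v t)) atBot (𝓝 0) ∧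
        ∀ t, dist (α u t) (α v t) ≤ |u - v| := by
  obtain ⟨P⟩ := Pool.Agent.Helper10.Asy.JA.exists_prof
  obtain ⟨Fl⟩ := Pool.Agent.Helper10.Asy.JB.exists_flow P
  obtain ⟨M, i1, i2, i3, i4, i5, i6, e, hlow, hup0⟩ := Pool.Agent.Helper10.Asy.JM.exists_model P
  have hcomp : CompleteSpace M := Pool.Agent.Helper10.Asy.JN.complete_of_lower P M e hlow
  have hup1 : ∀ γ : ℝ → ℝ × ℝ × ℝ, P.IsGeod γ → ∀ x y : ℝ, x ≤ y →
      dist (e.symm (Pool.Agent.Helper10.Asy.pos (γ x)))
        (e.symm (Pool.Agent.Helper10.Asy.pos (γ y))) ≤ y - x := by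
    intro γ hγ x y hxy
    have hcγ : Continuous γ := continuous_iff_continuousAt.2 fun x => (hγ x).continuousAt
    have h := hup0 (fun x => Pool.Agent.Helper10.Asy.pos (γ x))
      (fun x => ((P.V (γ x)).1, (P.V (γ x)).2.1)) x y 1 hxy zero_le_one
      (fun z => Pool.Agent.Helper10.Asy.pos_hasDerivAt P hγ z)
      ((continuous_fst.comp ((Pool.Agent.Helper10.Asy.continuous_V P).comp hcγ)).prodMk
        (continuous_fst.comp (continuous_snd.comp
          ((Pool.Agent.Helper10.Asy.continuous_V P).comp hcγ))))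
      (fun z _ => by rw [Pool.Agent.Helper10.Asy.nsq_V]; norm_num)
    simpa using h
  have hup : ∀ γ : ℝ → ℝ × ℝ × ℝ, P.IsGeod γ → ∀ x y : ℝ,
      dist (e.symm (Pool.Agent.Helper10.Asy.pos (γ x)))
        (e.symm (Pool.Agent.Helper10.Asy.pos (γ y))) ≤ |x - y| := by
    intro γ hγ x y
    rcases le_total x y with h | h
    · rw [abs_sub_comm, abs_of_nonneg (by linarith)]
      exact hup1 γ hγ x y h
    · rw [dist_comm, abs_of_nonneg (by linarith)]
      exact hup1 γ hγ y x h
  have hvert : ∀ s x y : ℝ, dist (e.symm (x, s)) (e.symm (y, s)) = |x - y| := by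
    intro s x y
    apply le_antisymm
    · exact hup _ (Pool.Agent.Helper10.Asy.vert_isGeod P s) x y
    · have h1 := hlow (fun q => q.1) contDiff_fst (fun q v => by
        have : fderiv ℝ (fun q : ℝ × ℝ => q.1) q v = v.1 := by
          rw [fderiv_fst]; rfl
        rw [this]
        simp only [Pool.Agent.Helper10.Asy.Prof.nsq]
        nlinarith [sq_nonneg (P.f q * v.2)]) (e.symm (x, s)) (e.symm (y, s))
      simpa using h1
  have hdist1 : ∀ t a b : ℝ, 0 ≤ a → b ≤ 1 → a ≤ b →
      dist (e.symm (t, a)) (e.symm (t, b)) ≤ Real.exp (P.L t) * (b - a) := by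
    intro t a b ha hb hab
    have h := hup0 (fun u => (t, u)) (fun _ => (0, 1)) a b (Real.exp (P.L t)) hab
      (Real.exp_pos _).le (fun x => (hasDerivAt_const x t).prodMk (hasDerivAt_id x))
      continuous_const (fun u hu => by
        simp [Pool.Agent.Helper10.Asy.Prof.nsq, Pool.Agent.Helper10.Asy.Prof.f,
          P.a_zero u ⟨ha.trans hu.1, hu.2.trans hb⟩])
    simpa using h
  have hdist : ∀ t u v : ℝ, u ∈ Set.Icc (0 : ℝ) 1 → v ∈ Set.Icc (0 : ℝ) 1 →
      dist (e.symm (t, u)) (e.symm (t, v)) ≤ Real.exp (P.L t) * |u - v| := by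
    intro t u v hu hv
    rcases le_total u v with h | h
    · rw [abs_sub_comm, abs_of_nonneg (by linarith)]
      exact hdist1 t u v hu.1 hv.2 h
    · rw [dist_comm, abs_of_nonneg (by linarith)]
      exact hdist1 t v u hv.1 hu.2 h
  refine ⟨⟨⟨M, ⟨i5⟩, ⟨i6⟩⟩, hcomp, ⟨e⟩⟩, fun γ hγ =>
    Pool.Agent.Helper10.Asy.JO.local_geod P Fl (Pool.Agent.Helper10.Asy.calib_all P Fl)
      (Pool.Agent.Helper10.Asy.join_all P Fl) M e hlow hup γ hγ,
    fun u t => e.symm (t, u), fun u => hvert u, fun u hu v hv huv => ⟨fun h => ?_, ?_,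
    fun t => ?_⟩⟩
  · have h1 := congrFun h 0
    have h2 := e.symm.injective h1
    exact huv (congrArg Prod.snd h2)
  · refine squeeze_zero (fun t => dist_nonneg) (fun t => hdist t u v hu hv) ?_
    have := (Real.tendsto_exp_atBot.comp P.L_bot).mul_const |u - v|
    rwa [zero_mul] at this
  · refine (hdist t u v hu hv).trans ?_
    have h2 : Real.exp (P.L t) ≤ 1 := by
      rw [Real.exp_le_one_iff]
      exact Pool.Agent.Helper10.Asy.L_nonpos P t
    exact mul_le_of_le_one_left (abs_nonneg _) h2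

end Pool.Agent.Results.MP_92a93b_gt.PlaneWithBoundedStrip
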